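import Pool.Agent.K.MP_c862d8_co.C0

open Pool.Agent.P.MP_c862d8_co in
theorem Pool.Agent.Results.MP_c862d8_co.Interval.result (n m h : ℕ) (hm : 2 ≤ m) (hh : 2 ≤ h)
    (h1 : c h m ≤ n)
    (h2 : n ≤ ∑ j ∈ (Finset.Icc 1 h).filter (fun j => j % 2 = h % 2), c j m) :
    m ≤ n ∧ nu n m h < min n (c h m) :=
  interval n m h hm hh h1 h2
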