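import Pool.Agent.K.MP_c862d8_co.C1

open Pool.Agent.P.MP_c862d8_co in
theorem Pool.Agent.Results.MP_c862d8_co.LatticeThreshold.result (m : ℕ) (hm : 2 ≤ m) :
    (∀ n h : ℕ, 2 ≤ h → c h m ≤ n → (n : ℝ) < 2 ^ (m - 1) * critDet m * (h + 1) ^ m →
      m ≤ n ∧ nu n m h < min n (c h m)) ∧
    (∀ ε : ℝ, 0 < ε → ∃ h0 : ℕ, ∀ h : ℕ, h0 ≤ h → ∀ n : ℕ,
      (2 ^ (m - 1) * critDet m + ε) * (h : ℝ) ^ m ≤ n → ¬ nu n m h < min n (c h m)) :=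
  ⟨fun n h hh h1 h2 => below n m h hm (by omega) h1 h2, above m hm⟩
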